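import Mathlib
import Pool.Agent.Lib.MP_492aa6_al.Switch
import Pool.Agent.Lib.MP_492aa6_al.Cycles

/-!
# Non-singular words with constants in symmetric groups are asymptotically equidistributed

For every `r` and every sequence of non-singular words with constants `w n` in `S_n * F_r` of
bounded length, the symmetrised word measures converge to the uniform measure in the
Kantorovich-Rubinstein distance attached to the normalised Hamming metric.
-/

namespace Pool.Agent.Results.MP_492aa6_al.NonsingularWords

open Filter Topology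

/-- A word with constants `c_0 x_{i_1}^{e_1} c_1 ⋯ x_{i_l}^{e_l} c_l` over `G` in the variables
`x_0, …, x_{r-1}`: `head = c_0` and `tail = [((i_1, e_1), c_1), …, ((i_l, e_l), c_l)]`,
where the exponent `+1` is encoded by `true` and the exponent `-1` by `false`. -/
structure ConstWord (G : Type) (r : ℕ) where
  head : G
  tail : List ((Fin r × Bool) × G)

namespace ConstWord

variable {G : Type} [Group G] {r : ℕ}

/-- The length `l` of a word with constants. -/
def length (w : ConstWord G r) : ℕ := w.tail.length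

/-- The element `x_i` or `x_i⁻¹` of the free group. -/
def letter (s : Fin r × Bool) : FreeGroup (Fin r) :=
  if s.2 then FreeGroup.of s.1 else (FreeGroup.of s.1)⁻¹

/-- The element of the free product `G * F_r` written by the word. -/
def toFreeProduct (w : ConstWord G r) : Monoid.Coprod G (FreeGroup (Fin r)) :=
  Monoid.Coprod.inl w.head *
    (w.tail.map fun s => Monoid.Coprod.inr (letter s.1) * Monoid.Coprod.inl s.2).prod

/-- The content: the image in `F_r` under the homomorphism killing `G`. -/
def content (w : ConstWord G r) : FreeGroup (Fin r) :=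
  Monoid.Coprod.lift (1 : G →* FreeGroup (Fin r)) (MonoidHom.id (FreeGroup (Fin r)))
    w.toFreeProduct

/-- A word is non-singular if its content is non-trivial. -/
def IsNonsingular (w : ConstWord G r) : Prop := w.content ≠ 1

/-- The word map `G^r → G`: substitute `x_i ↦ g i`. -/
def wordMap (w : ConstWord G r) (g : Fin r → G) : G :=
  Monoid.Coprod.lift (MonoidHom.id G) (FreeGroup.lift g) w.toFreeProduct

end ConstWord

/-- The word measure: push-forward of the uniform probability measure on `S_n^r`. -/
noncomputable def wordMeasure {n r : ℕ} (w : ConstWord (Equiv.Perm (Fin n)) r) :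
    PMF (Equiv.Perm (Fin n)) :=
  (PMF.uniformOfFintype (Fin r → Equiv.Perm (Fin n))).map w.wordMap

/-- Symmetrisation: conjugation by an independent uniformly random permutation. -/
noncomputable def symmetrize {n : ℕ} (μ : PMF (Equiv.Perm (Fin n))) :
    PMF (Equiv.Perm (Fin n)) :=
  (PMF.uniformOfFintype (Equiv.Perm (Fin n))).bind fun σ => μ.map fun τ => σ * τ * σ⁻¹

/-- The normalised Hamming metric `|{i : σ i ≠ τ i}| / n`. -/
noncomputable def hamming {n : ℕ} (σ τ : Equiv.Perm (Fin n)) : ℝ :=
  ((Finset.univ.filter fun i => σ i ≠ τ i).card : ℝ) / n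

/-- The Kantorovich-Rubinstein distance: infimum over couplings of the expected distance. -/
noncomputable def krDist {n : ℕ} (μ ν : PMF (Equiv.Perm (Fin n))) : ℝ :=
  sInf {c : ℝ | ∃ γ : PMF (Equiv.Perm (Fin n) × Equiv.Perm (Fin n)),
    γ.map Prod.fst = μ ∧ γ.map Prod.snd = ν ∧
      c = ∑ p, (γ p).toReal * hamming p.1 p.2}

/-! ### Expectations -/

section expectation

/-- expectation of a real function under a PMF on a finite type -/
noncomputable def expec {α : Type} [Fintype α] (p : PMF α) (f : α → ℝ) : ℝ :=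
  ∑ a, (p a).toReal * f a

variable {α β : Type} [Fintype α] [Fintype β]

lemma expec_pure [DecidableEq α] (a : α) (f : α → ℝ) : expec (PMF.pure a) f = f a := by
  unfold expec
  rw [Finset.sum_eq_single a]
  · simp
  · intro b _ hb
    simp [PMF.pure_apply, hb]
  · intro h
    exact absurd (Finset.mem_univ a) h

lemma expec_bind (p : PMF α) (κ : α → PMF β) (f : β → ℝ) :
    expec (p.bind κ) f = expec p fun a => expec (κ a) f := by
  unfold expec
  simp only [PMF.bind_apply, tsum_fintype]
  have h : ∀ b, (∑ a, p a * κ a b).toReal = ∑ a, (p a).toReal * (κ a b).toReal := by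
    intro b
    rw [ENNReal.toReal_sum]
    · simp [ENNReal.toReal_mul]
    · intro a _
      exact ENNReal.mul_ne_top (p.apply_ne_top a) ((κ a).apply_ne_top b)
  simp only [h, Finset.sum_mul, Finset.mul_sum]
  rw [Finset.sum_comm]
  simp only [mul_assoc]

lemma expec_map [DecidableEq β] (p : PMF α) (g : α → β) (f : β → ℝ) :
    expec (p.map g) f = expec p fun a => f (g a) := by
  rw [← PMF.bind_pure_comp, expec_bind]
  simp only [Function.comp_apply, expec_pure]

lemma expec_mono (p : PMF α) {f f' : α → ℝ} (h : ∀ a, f a ≤ f' a) : expec p f ≤ expec p f' := by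
  unfold expec
  apply Finset.sum_le_sum
  intro a _
  exact mul_le_mul_of_nonneg_left (h a) ENNReal.toReal_nonneg

lemma expec_const (p : PMF α) (c : ℝ) : (expec p fun _ => c) = c := by
  unfold expec
  rw [← Finset.sum_mul, ← ENNReal.toReal_sum (fun a _ => p.apply_ne_top a)]
  have : ∑ a, p a = 1 := by
    rw [← tsum_fintype (L := SummationFilter.unconditional α)]
    exact p.tsum_coe
  rw [this]
  simp

lemma expec_add (p : PMF α) (f f' : α → ℝ) :
    (expec p fun a => f a + f' a) = expec p f + expec p f' := by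
  unfold expec
  rw [← Finset.sum_add_distrib]
  simp only [mul_add]

lemma expec_mul_left (p : PMF α) (c : ℝ) (f : α → ℝ) :
    (expec p fun a => c * f a) = c * expec p f := by
  unfold expec
  rw [Finset.mul_sum]
  congr 1
  ext a
  ring

lemma expec_uniform [Nonempty α] (f : α → ℝ) :
    expec (PMF.uniformOfFintype α) f = (∑ a, f a) / Fintype.card α := by
  unfold expec
  simp only [PMF.uniformOfFintype_apply, ENNReal.toReal_inv, ENNReal.toReal_natCast]
  rw [← Finset.mul_sum]
  ring

lemma map_uniform_equiv [Nonempty α] (e : α ≃ α) :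
    (PMF.uniformOfFintype α).map e = PMF.uniformOfFintype α := by
  ext b
  rw [PMF.map_apply]
  rw [tsum_eq_single (e.symm b)]
  · simp
  · intro a ha
    rw [if_neg]
    intro h
    apply ha
    rw [h, Equiv.symm_apply_apply]

end expectation

/-! ### The coupling -/

section coupling

variable {n : ℕ}

lemma symmetrize_eq (μ : PMF (Equiv.Perm (Fin n))) :
    symmetrize μ = μ.bind fun σ => (PMF.uniformOfFintype (Equiv.Perm (Fin n))).bind
      fun π => PMF.pure (π * σ * π⁻¹) := by
  unfold symmetrize
  rw [PMF.bind_comm]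
  rfl

lemma symmetrize_uniform :
    symmetrize (PMF.uniformOfFintype (Equiv.Perm (Fin n))) =
      PMF.uniformOfFintype (Equiv.Perm (Fin n)) := by
  unfold symmetrize
  have h : ∀ σ : Equiv.Perm (Fin n),
      (PMF.uniformOfFintype (Equiv.Perm (Fin n))).map (fun τ => σ * τ * σ⁻¹) =
        PMF.uniformOfFintype (Equiv.Perm (Fin n)) := by
    intro σ
    exact map_uniform_equiv (MulAut.conj σ).toEquiv
  simp only [h, PMF.bind_const]

lemma uniform_shift (π₀ : Equiv.Perm (Fin n)) (σ' : Equiv.Perm (Fin n)) :
    ((PMF.uniformOfFintype (Equiv.Perm (Fin n))).bind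
      fun π => PMF.pure ((π * π₀) * σ' * (π * π₀)⁻¹)) =
    (PMF.uniformOfFintype (Equiv.Perm (Fin n))).bind
      fun π => PMF.pure (π * σ' * π⁻¹) := by
  conv_rhs => rw [← map_uniform_equiv (Equiv.mulRight π₀)]
  rw [PMF.bind_map]
  rfl

/-- Sanity check: couplings exist, so the infimum defining `krDist` is over a non-empty set. -/
lemma exists_coupling (μ ν : PMF (Equiv.Perm (Fin n))) :
    ∃ γ : PMF (Equiv.Perm (Fin n) × Equiv.Perm (Fin n)),
      γ.map Prod.fst = μ ∧ γ.map Prod.snd = ν := by
  refine ⟨μ.bind fun σ => ν.bind fun τ => PMF.pure (σ, τ), ?_, ?_⟩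
  · simp only [PMF.map_bind, PMF.pure_map, PMF.bind_const, PMF.bind_pure]
  · simp only [PMF.map_bind, PMF.pure_map, PMF.bind_const, PMF.bind_pure]

lemma krDist_nonneg (μ ν : PMF (Equiv.Perm (Fin n))) : 0 ≤ krDist μ ν := by
  unfold krDist
  apply Real.sInf_nonneg
  rintro c ⟨γ, -, -, rfl⟩
  apply Finset.sum_nonneg
  intro p _
  unfold hamming
  positivity

open Lib.MP_492aa6_al in
lemma krDist_symmetrize_le (hn : 2 ≤ n) (μ ν : PMF (Equiv.Perm (Fin n))) :
    krDist (symmetrize μ) (symmetrize ν) ≤
      2 / n * (expec μ (fun σ => (ncyc σ : ℝ)) + expec ν fun σ => (ncyc σ : ℝ)) := by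
  classical
  have : Nontrivial (Fin n) := Fin.nontrivial_iff_two_le.2 hn
  choose π₀ hπ₀ using fun σ σ' : Equiv.Perm (Fin n) => exists_conj_close σ σ'
  let U := PMF.uniformOfFintype (Equiv.Perm (Fin n))
  let γ : PMF (Equiv.Perm (Fin n) × Equiv.Perm (Fin n)) :=
    μ.bind fun σ => ν.bind fun σ' => U.bind fun π =>
      PMF.pure (π * σ * π⁻¹, (π * π₀ σ σ') * σ' * (π * π₀ σ σ')⁻¹)
  have h1 : γ.map Prod.fst = symmetrize μ := by
    rw [symmetrize_eq]
    simp only [γ, PMF.map_bind, PMF.pure_map, PMF.bind_const]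
    rfl
  have h2 : γ.map Prod.snd = symmetrize ν := by
    rw [symmetrize_eq]
    simp only [γ, PMF.map_bind, PMF.pure_map]
    simp only [U, uniform_shift]
    rw [PMF.bind_const]
  have h3 : expec γ (fun p => hamming p.1 p.2) ≤
      2 / n * (expec μ (fun σ => (ncyc σ : ℝ)) + expec ν fun σ => (ncyc σ : ℝ)) := by
    simp only [γ, expec_bind, expec_pure]
    calc _ ≤ expec μ fun σ => expec ν fun σ' =>
          (2 / n * (ncyc σ : ℝ) + 2 / n * (ncyc σ' : ℝ)) := by
          apply expec_mono
          intro σ
          apply expec_mono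
          intro σ'
          calc _ ≤ expec U fun _ => (2 / n * (ncyc σ : ℝ) + 2 / n * (ncyc σ' : ℝ)) := by
                apply expec_mono
                intro π
                have e1 : (π * π₀ σ σ') * σ' * (π * π₀ σ σ')⁻¹ =
                    π * (π₀ σ σ' * σ' * (π₀ σ σ')⁻¹) * π⁻¹ := by group
                rw [e1]
                have e2 := hammingDist_conj π σ (π₀ σ σ' * σ' * (π₀ σ σ')⁻¹)
                have e3 := hπ₀ σ σ'
                have e4 : hamming (π * σ * π⁻¹) (π * (π₀ σ σ' * σ' * (π₀ σ σ')⁻¹) * π⁻¹) =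
                    (hammingDist (⇑σ) (⇑(π₀ σ σ' * σ' * (π₀ σ σ')⁻¹)) : ℝ) / n := by
                  rw [← e2]
                  rfl
                rw [e4]
                have e5 : (hammingDist (⇑σ) (⇑(π₀ σ σ' * σ' * (π₀ σ σ')⁻¹)) : ℝ) ≤
                    2 * ((ncyc σ : ℝ) + ncyc σ') := by exact_mod_cast e3
                calc _ ≤ (2 * ((ncyc σ : ℝ) + ncyc σ')) / n := by gcongr
                  _ = _ := by ring
            _ = _ := expec_const _ _
      _ = _ := by
          simp only [expec_add, expec_const, expec_mul_left]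
          ring
  refine le_trans (csInf_le ?_ ⟨γ, h1, h2, rfl⟩) h3
  refine ⟨0, ?_⟩
  rintro c ⟨γ', -, -, rfl⟩
  apply Finset.sum_nonneg
  intro p _
  unfold hamming
  positivity

end coupling

/-! ### Words as sequences, and powers of words -/

section words

open Lib.MP_492aa6_al

variable {G : Type} [Group G] {r : ℕ}

lemma toFreeProduct_cons (h c : G) (s : Fin r × Bool) (t : List ((Fin r × Bool) × G)) :
    (ConstWord.mk h ((s, c) :: t)).toFreeProduct =
      Monoid.Coprod.inl h * Monoid.Coprod.inr (ConstWord.letter s) *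
        (ConstWord.mk c t).toFreeProduct := by
  simp [ConstWord.toFreeProduct, mul_assoc]

lemma letter_eq_fl (s : Fin r × Bool) : ConstWord.letter s = fl s := by
  rcases s with ⟨i, b⟩
  cases b
  · simp [ConstWord.letter, fl, FreeGroup.of, FreeGroup.inv_mk, FreeGroup.invRev]
  · simp [ConstWord.letter, fl, FreeGroup.of]

lemma content_cons (h c : G) (s : Fin r × Bool) (t : List ((Fin r × Bool) × G)) :
    (ConstWord.mk h ((s, c) :: t)).content = fl s * (ConstWord.mk c t).content := by
  unfold ConstWord.content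
  rw [toFreeProduct_cons]
  simp [letter_eq_fl]

lemma content_nil (h : G) : (ConstWord.mk h ([] : List ((Fin r × Bool) × G))).content = 1 := by
  simp [ConstWord.content, ConstWord.toFreeProduct]

lemma wordMap_nil (h : G) (g : Fin r → G) :
    (ConstWord.mk h ([] : List ((Fin r × Bool) × G))).wordMap g = h := by
  simp [ConstWord.wordMap, ConstWord.toFreeProduct]

lemma wordMap_cons {α : Type} (h c : Equiv.Perm α) (s : Fin r × Bool)
    (t : List ((Fin r × Bool) × Equiv.Perm α)) (g : Fin r → Equiv.Perm α) :
    (ConstWord.mk h ((s, c) :: t)).wordMap g = h * act g s * (ConstWord.mk c t).wordMap g := by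
  unfold ConstWord.wordMap
  rw [toFreeProduct_cons, map_mul, map_mul]
  congr 2
  rcases s with ⟨i, b⟩
  cases b <;> simp [ConstWord.letter, act]

lemma pos_congr {α : Type} (a a' : ℕ → Fin r × Bool) (d d' : ℕ → Equiv.Perm α)
    (g : Fin r → Equiv.Perm α) (p : α) (l : ℕ) (ha : ∀ t < l, a t = a' t)
    (hd : ∀ t < l, d t = d' t) : ∀ t ≤ l, pos a d g p t = pos a' d' g p t := by
  intro t
  induction t with
  | zero => intro _; rfl
  | succ t ih =>
    intro ht
    simp only [pos]
    rw [ih (by omega), ha t (by omega), hd t (by omega)]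

lemma lab_congr (a a' : ℕ → Fin r × Bool) (l : ℕ) (ha : ∀ t < l, a t = a' t) :
    ∀ t ≤ l, lab a t = lab a' t := by
  intro t
  induction t with
  | zero => intro _; rfl
  | succ t ih =>
    intro ht
    simp only [lab]
    rw [ih (by omega), ha t (by omega)]

/-- Every word is given by a sequence of letters and constants. -/
lemma exists_seq {α : Type} (s₀ : Fin r × Bool) (t : List ((Fin r × Bool) × Equiv.Perm α)) :
    ∀ h : Equiv.Perm α, ∃ (a : ℕ → Fin r × Bool) (d : ℕ → Equiv.Perm α),
      (∀ g p, src a d g p t.length = (ConstWord.mk h t).wordMap g p) ∧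
      lab a t.length = (ConstWord.mk h t).content := by
  induction t with
  | nil =>
    intro h
    refine ⟨fun _ => s₀, fun _ => h, ?_, ?_⟩
    · intro g p
      rw [wordMap_nil]
      rfl
    · rw [content_nil]
      rfl
  | cons z t ih =>
    intro h
    obtain ⟨s, c⟩ := z
    obtain ⟨a', d', h1, h2⟩ := ih c
    refine ⟨Function.update a' t.length s, Function.update d' (t.length + 1) h, ?_, ?_⟩
    · intro g p
      rw [wordMap_cons, List.length_cons, src, Function.update_self]
      simp only [pos]
      rw [Function.update_self, Function.update_of_ne (by omega),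
        pos_congr _ a' _ d' g p t.length _ _ t.length le_rfl]
      · change h (act g s (src a' d' g p t.length)) = _
        rw [h1]
        rfl
      · intro i hi
        exact Function.update_of_ne (by omega) _ _
      · intro i hi
        exact Function.update_of_ne (by omega) _ _
    · rw [content_cons, List.length_cons, ← h2]
      simp only [lab]
      rw [Function.update_self, lab_congr _ a' t.length _ t.length le_rfl]
      intro i hi
      exact Function.update_of_ne (by omega) _ _

/-- Products of words. -/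
lemma exists_mul (w₂ : ConstWord G r) (t : List ((Fin r × Bool) × G)) :
    ∀ h : G, ∃ w : ConstWord G r,
      w.toFreeProduct = (ConstWord.mk h t).toFreeProduct * w₂.toFreeProduct ∧
      w.length = t.length + w₂.length := by
  induction t with
  | nil =>
    intro h
    refine ⟨⟨h * w₂.head, w₂.tail⟩, ?_, ?_⟩
    · simp [ConstWord.toFreeProduct, mul_assoc]
    · simp [ConstWord.length]
  | cons z t ih =>
    intro h
    obtain ⟨s, c⟩ := z
    obtain ⟨w', h1, h2⟩ := ih c
    refine ⟨⟨h, (s, w'.head) :: w'.tail⟩, ?_, ?_⟩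
    · rw [toFreeProduct_cons, toFreeProduct_cons]
      change _ * w'.toFreeProduct = _
      rw [h1]
      simp only [mul_assoc]
    · simp only [ConstWord.length, List.length_cons] at h2 ⊢
      omega

/-- Powers of words. -/
lemma exists_pow (w : ConstWord G r) (k : ℕ) : ∃ v : ConstWord G r,
    v.toFreeProduct = w.toFreeProduct ^ k ∧ v.length = k * w.length := by
  induction k with
  | zero =>
    refine ⟨⟨1, []⟩, ?_, ?_⟩
    · simp [ConstWord.toFreeProduct]
    · simp [ConstWord.length]
  | succ k ih =>
    obtain ⟨v, h1, h2⟩ := ih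
    obtain ⟨u, h3, h4⟩ := exists_mul v w.tail w.head
    refine ⟨u, ?_, ?_⟩
    · rw [h3, h1, pow_succ']
    · rw [h4, h2]
      simp only [ConstWord.length]
      ring

end words

/-! ### The averaged bounds -/

section averages

open Lib.MP_492aa6_al

variable {n r : ℕ}

/-- the constant in the counting bound -/
def cst (M : ℕ) : ℕ := M * M * (2 * M + 3) ^ (M + 2)

lemma cst_mono {M M' : ℕ} (h : M ≤ M') : cst M ≤ cst M' := by
  unfold cst
  have h1 : (2 * M + 3) ^ (M + 2) ≤ (2 * M' + 3) ^ (M' + 2) :=
    (Nat.pow_le_pow_left (by omega) _).trans (Nat.pow_le_pow_right (by omega) (by omega))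
  exact Nat.mul_le_mul (Nat.mul_le_mul h h) h1

lemma sum_nfix_le (w : ConstWord (Equiv.Perm (Fin n)) r) (hw : w.content ≠ 1) (M : ℕ)
    (hM : w.length ≤ M) :
    (∑ g : Fin r → Equiv.Perm (Fin n), nfix (w.wordMap g)) * (n - M) ≤
      Fintype.card (Fin r → Equiv.Perm (Fin n)) * (n * cst M) := by
  classical
  rcases Nat.eq_zero_or_pos r with rfl | hr
  · exact absurd (Subsingleton.elim _ _) hw
  obtain ⟨h, t⟩ := w
  obtain ⟨a, d, h1, h2⟩ := exists_seq (⟨0, hr⟩, true) t h
  have hM' : t.length ≤ M := hM
  -- the set of constants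
  let B : Finset (Equiv.Perm (Fin n)) :=
    insert 1 ((Finset.range (t.length + 1)).image d ∪
      (Finset.range (t.length + 1)).image fun i => (d i)⁻¹)
  have hB1 : (1 : Equiv.Perm (Fin n)) ∈ B := Finset.mem_insert_self _ _
  have hBd : ∀ i ≤ t.length, d i ∈ B := by
    intro i hi
    apply Finset.mem_insert_of_mem
    apply Finset.mem_union_left
    exact Finset.mem_image_of_mem _ (by simpa using Nat.lt_succ_of_le hi)
  have hBinv : ∀ e ∈ B, e⁻¹ ∈ B := by
    intro e he
    simp only [B, Finset.mem_insert, Finset.mem_union, Finset.mem_image] at he ⊢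
    rcases he with rfl | ⟨i, hi, rfl⟩ | ⟨i, hi, rfl⟩
    · left; simp
    · right; right; exact ⟨i, hi, rfl⟩
    · right; left; exact ⟨i, hi, by simp⟩
  have hBcard : B.card ≤ 2 * t.length + 3 := by
    refine (Finset.card_insert_le _ _).trans ?_
    have h3 := Finset.card_union_le ((Finset.range (t.length + 1)).image d)
      ((Finset.range (t.length + 1)).image fun i => (d i)⁻¹)
    have h4 : ((Finset.range (t.length + 1)).image d).card ≤ t.length + 1 :=
      Finset.card_image_le.trans (by simp)
    have h5 : ((Finset.range (t.length + 1)).image fun i => (d i)⁻¹).card ≤ t.length + 1 :=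
      Finset.card_image_le.trans (by simp)
    omega
  have hlab : lab a t.length ≠ 1 := by rw [h2]; exact hw
  have hswap : ∑ g : Fin r → Equiv.Perm (Fin n), nfix ((ConstWord.mk h t).wordMap g) =
      ∑ p : Fin n, (Finset.univ.filter fun g : Fin r → Equiv.Perm (Fin n) =>
        src a d g p t.length = p).card := by
    unfold nfix
    simp only [h1, Finset.card_filter]
    rw [Finset.sum_comm]
  rw [hswap, Finset.sum_mul]
  have hpt : ∀ p : Fin n, (Finset.univ.filter fun g : Fin r → Equiv.Perm (Fin n) =>
        src a d g p t.length = p).card * (n - M) ≤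
      Fintype.card (Fin r → Equiv.Perm (Fin n)) * cst M := by
    intro p
    have h3 := card_fixed_le a d p t.length hlab B hB1 hBd hBinv
    rw [Fintype.card_fin] at h3
    calc _ ≤ (Finset.univ.filter fun g : Fin r → Equiv.Perm (Fin n) =>
        src a d g p t.length = p).card * (n - t.length) := by
          apply Nat.mul_le_mul_left
          omega
      _ ≤ _ := h3
      _ ≤ Fintype.card (Fin r → Equiv.Perm (Fin n)) * cst M := by
          apply Nat.mul_le_mul_left
          refine le_trans ?_ (cst_mono hM')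
          unfold cst
          apply Nat.mul_le_mul_left
          exact Nat.pow_le_pow_left hBcard _
  calc _ ≤ ∑ p : Fin n, Fintype.card (Fin r → Equiv.Perm (Fin n)) * cst M :=
        Finset.sum_le_sum fun p _ => hpt p
    _ = _ := by
        rw [Finset.sum_const, Finset.card_univ, Fintype.card_fin, smul_eq_mul]
        ring

lemma content_pow (w v : ConstWord (Equiv.Perm (Fin n)) r) (k : ℕ)
    (h : v.toFreeProduct = w.toFreeProduct ^ k) : v.content = w.content ^ k := by
  unfold ConstWord.content
  rw [h, map_pow]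

lemma wordMap_pow (w v : ConstWord (Equiv.Perm (Fin n)) r) (k : ℕ)
    (h : v.toFreeProduct = w.toFreeProduct ^ k) (g : Fin r → Equiv.Perm (Fin n)) :
    v.wordMap g = w.wordMap g ^ k := by
  unfold ConstWord.wordMap
  rw [h, map_pow]

/-- Average number of cycles of the value of a non-singular word. -/
lemma mean_ncyc_le (w : ConstWord (Equiv.Perm (Fin n)) r) (hw : w.IsNonsingular) (L K : ℕ)
    (hL : w.length ≤ L) (hn : K * L < n) :
    (∑ g : Fin r → Equiv.Perm (Fin n), (ncyc (w.wordMap g) : ℝ)) /
        Fintype.card (Fin r → Equiv.Perm (Fin n)) ≤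
      n * (1 / (K + 1) + K * (cst (K * L) / (n - (K * L : ℕ) : ℝ))) := by
  classical
  set N : ℕ := Fintype.card (Fin r → Equiv.Perm (Fin n)) with hN
  have hNpos : (0 : ℝ) < N := by
    rw [hN]
    exact_mod_cast Fintype.card_pos
  have hnM : (0 : ℝ) < n - (K * L : ℕ) := by
    have : ((K * L : ℕ) : ℝ) < n := by exact_mod_cast hn
    linarith
  -- fixed points of powers
  have hfix : ∀ k ∈ Finset.Icc 1 K,
      (∑ g : Fin r → Equiv.Perm (Fin n), (nfix (w.wordMap g ^ k) : ℝ)) ≤
        N * (n * cst (K * L)) / (n - (K * L : ℕ)) := by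
    intro k hk
    rw [Finset.mem_Icc] at hk
    obtain ⟨v, hv1, hv2⟩ := exists_pow w k
    have hcont : v.content ≠ 1 := by
      rw [content_pow w v k hv1]
      intro h
      apply hw
      have hk0 : k ≠ 0 := by omega
      exact (pow_eq_one_iff_left hk0).1 h
    have hlen : v.length ≤ K * L := by
      rw [hv2]
      exact Nat.mul_le_mul hk.2 hL
    have h1 := sum_nfix_le v hcont (K * L) hlen
    rw [le_div_iff₀ hnM]
    have h2 : ((n - K * L : ℕ) : ℝ) = (n : ℝ) - (K * L : ℕ) := by
      rw [Nat.cast_sub hn.le]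
    rw [← h2]
    have h3 : ∀ g, v.wordMap g = w.wordMap g ^ k := wordMap_pow w v k hv1
    simp only [h3] at h1
    exact_mod_cast h1
  -- pointwise bound
  have hpt : ∀ g : Fin r → Equiv.Perm (Fin n), (ncyc (w.wordMap g) : ℝ) ≤
      n / (K + 1) + ∑ k ∈ Finset.Icc 1 K, (nfix (w.wordMap g ^ k) : ℝ) := by
    intro g
    have h1 := ncyc_le (w.wordMap g) K
    rw [Fintype.card_fin] at h1
    have h2 : ((K : ℝ) + 1) * ncyc (w.wordMap g) ≤
        n + ((K : ℝ) + 1) * ∑ k ∈ Finset.Icc 1 K, (nfix (w.wordMap g ^ k) : ℝ) := by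
      exact_mod_cast h1
    have hK : (0 : ℝ) < K + 1 := by positivity
    rw [← mul_le_mul_iff_right₀ hK]
    calc _ ≤ _ := h2
      _ = _ := by
        field_simp
  have hsum : (∑ g : Fin r → Equiv.Perm (Fin n), (ncyc (w.wordMap g) : ℝ)) ≤
      N * (n / (K + 1)) + K * (N * (n * cst (K * L)) / (n - (K * L : ℕ))) := by
    calc _ ≤ ∑ g : Fin r → Equiv.Perm (Fin n),
          (n / (K + 1) + ∑ k ∈ Finset.Icc 1 K, (nfix (w.wordMap g ^ k) : ℝ)) :=
          Finset.sum_le_sum fun g _ => hpt g
      _ = N * (n / (K + 1)) + ∑ k ∈ Finset.Icc 1 K,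
          ∑ g : Fin r → Equiv.Perm (Fin n), (nfix (w.wordMap g ^ k) : ℝ) := by
          rw [Finset.sum_add_distrib, Finset.sum_const, Finset.card_univ, nsmul_eq_mul,
            Finset.sum_comm]
      _ ≤ N * (n / (K + 1)) + ∑ k ∈ Finset.Icc 1 K,
          (N * (n * cst (K * L)) / (n - (K * L : ℕ)) : ℝ) := by
          gcongr with k hk
          exact hfix k hk
      _ = _ := by
          rw [Finset.sum_const, Nat.card_Icc, nsmul_eq_mul]
          simp
  rw [div_le_iff₀ hNpos]
  calc _ ≤ _ := hsum
    _ = _ := by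
      field_simp

end averages

/-! ### The theorem -/

section final

open Lib.MP_492aa6_al

lemma expec_wordMeasure {n r : ℕ} (w : ConstWord (Equiv.Perm (Fin n)) r)
    (f : Equiv.Perm (Fin n) → ℝ) :
    expec (wordMeasure w) f = (∑ g : Fin r → Equiv.Perm (Fin n), f (w.wordMap g)) /
      Fintype.card (Fin r → Equiv.Perm (Fin n)) := by
  classical
  unfold wordMeasure
  rw [expec_map, expec_uniform]

/-- the word `x_0` in one variable -/
def varWord (n : ℕ) : ConstWord (Equiv.Perm (Fin n)) 1 := ⟨1, [((0, true), 1)]⟩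

lemma varWord_nonsingular (n : ℕ) : (varWord n).IsNonsingular := by
  unfold ConstWord.IsNonsingular varWord
  rw [content_cons, content_nil, mul_one]
  exact FreeGroup.of_ne_one 0

lemma varWord_wordMap (n : ℕ) (g : Fin 1 → Equiv.Perm (Fin n)) : (varWord n).wordMap g = g 0 := by
  unfold varWord
  rw [wordMap_cons, wordMap_nil]
  simp [act]

lemma expec_uniform_ncyc_le {n : ℕ} (L K : ℕ) (hL : 1 ≤ L) (hn : K * L < n) :
    expec (PMF.uniformOfFintype (Equiv.Perm (Fin n))) (fun σ => (ncyc σ : ℝ)) ≤
      n * (1 / (K + 1) + K * (cst (K * L) / (n - (K * L : ℕ) : ℝ))) := by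
  classical
  have h := mean_ncyc_le (varWord n) (varWord_nonsingular n) L K
    (by simpa [varWord, ConstWord.length] using hL) hn
  refine le_trans (le_of_eq ?_) h
  rw [expec_uniform]
  simp only [varWord_wordMap]
  congr 1
  · exact (Fintype.sum_equiv (Equiv.funUnique (Fin 1) (Equiv.Perm (Fin n))) _ _
      (fun g => by simp [Equiv.funUnique])).symm
  · congr 1
    exact (Fintype.card_congr (Equiv.funUnique (Fin 1) (Equiv.Perm (Fin n)))).symm

/-- **Asymptotic equidistribution of non-singular words with constants in `S_n`.** -/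
theorem result (r : ℕ) (w : (n : ℕ) → ConstWord (Equiv.Perm (Fin n)) r)
    (hns : ∀ n, (w n).IsNonsingular) (hlen : ∃ L : ℕ, ∀ n, (w n).length ≤ L) :
    Tendsto (fun n => krDist (symmetrize (wordMeasure (w n)))
      (PMF.uniformOfFintype (Equiv.Perm (Fin n)))) atTop (𝓝 0) := by
  obtain ⟨L₀, hL₀⟩ := hlen
  set L := max L₀ 1 with hLdef
  have hL : ∀ n, (w n).length ≤ L := fun n => (hL₀ n).trans (le_max_left _ _)
  have hL1 : 1 ≤ L := le_max_right _ _
  have hbound : ∀ K n : ℕ, 2 ≤ n → K * L < n →
      krDist (symmetrize (wordMeasure (w n))) (PMF.uniformOfFintype (Equiv.Perm (Fin n))) ≤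
        4 * (1 / (K + 1) + K * (cst (K * L) / (n - (K * L : ℕ) : ℝ))) := by
    intro K n hn hKn
    have h1 := krDist_symmetrize_le hn (wordMeasure (w n))
      (PMF.uniformOfFintype (Equiv.Perm (Fin n)))
    rw [symmetrize_uniform] at h1
    have h2 := expec_uniform_ncyc_le (n := n) L K hL1 hKn
    have h3 := mean_ncyc_le (w n) (hns n) L K (hL n) hKn
    rw [expec_wordMeasure] at h1
    have hn0 : (0 : ℝ) < n := by exact_mod_cast (by omega : 0 < n)
    refine h1.trans ?_
    calc _ ≤ 2 / n * (n * (1 / (K + 1) + K * (cst (K * L) / (n - (K * L : ℕ) : ℝ))) +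
          n * (1 / (K + 1) + K * (cst (K * L) / (n - (K * L : ℕ) : ℝ)))) := by
          gcongr
      _ = _ := by
          field_simp
          ring
  rw [Metric.tendsto_atTop]
  intro ε hε
  obtain ⟨K, hK⟩ := exists_nat_gt (8 / ε)
  obtain ⟨N₀, hN₀⟩ := exists_nat_gt (8 * K * cst (K * L) / ε)
  refine ⟨N₀ + K * L + 2, fun n hn => ?_⟩
  have hn2 : 2 ≤ n := by omega
  have hKn : K * L < n := by omega
  rw [Real.dist_eq, sub_zero, abs_of_nonneg (krDist_nonneg _ _)]
  refine lt_of_le_of_lt (hbound K n hn2 hKn) ?_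
  have hn' : (N₀ : ℝ) < n - (K * L : ℕ) := by
    have : N₀ + K * L < n := by omega
    have h2 : (N₀ : ℝ) + (K * L : ℕ) < n := by exact_mod_cast this
    linarith
  have hden : (8 * K * cst (K * L) / ε : ℝ) < n - (K * L : ℕ) := hN₀.trans hn'
  have hden0 : (0 : ℝ) < n - (K * L : ℕ) := lt_of_le_of_lt (Nat.cast_nonneg _) hn'
  have e1 : 4 * (1 / ((K : ℝ) + 1)) < ε / 2 := by
    have hKpos : (0 : ℝ) < (K : ℝ) + 1 := by positivity
    rw [div_lt_iff₀ hε] at hK
    rw [mul_one_div, div_lt_iff₀ hKpos]
    nlinarith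
  have e2 : 4 * (K * (cst (K * L) / (n - (K * L : ℕ) : ℝ))) < ε / 2 := by
    rw [div_lt_iff₀ hε] at hden
    have : 4 * (K * (cst (K * L) / (n - (K * L : ℕ) : ℝ))) =
        (4 * K * cst (K * L)) / (n - (K * L : ℕ) : ℝ) := by ring
    rw [this, div_lt_iff₀ hden0]
    nlinarith
  linarith

end final

end Pool.Agent.Results.MP_492aa6_al.NonsingularWords
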